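import Mathlib
import Pool.Agent.Lib.MP_1910d6_an.Defs
import Pool.Agent.Lib.MP_1910d6_an.Main

/-!
# The dual of `E` has a weak* `π`-basis exactly when `E` has a finite dimensional decomposition

Let `E` be a separable Banach space over `ℝ` or `ℂ`.  The dual of `E` has a weak* `π`-basis (a
sequence of finite rank projections of the dual, bounded but not assumed weak* continuous, with
increasing ranges, converging pointwise weak* to the identity) if and only if `E` has a finite
dimensional decomposition.  Both are also equivalent to the existence of a weak* `π`-basis made of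
adjoint operators, to the existence of a dual `π`-basis of `E`, and to `E` having a `π`-basis
together with a commuting approximating sequence.

Consequently, for a space `E` with a `π`-basis, the dual of `E` has a weak* `π`-basis if and only
if `E` has a finite dimensional decomposition.
-/

namespace Pool.Agent.Results.MP_1910d6_an.WeakStarPiIffFDD

open Pool.Agent.Lib.MP_1910d6_an

/-- For a separable Banach space `E` the following are equivalent: the dual of `E` has a weak*
`π`-basis; it has a weak* `π`-basis made of adjoint operators; `E` has a finite dimensional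
decomposition; `E` has a dual `π`-basis; `E` has a `π`-basis and a commuting approximating
sequence. -/
theorem result {𝕜 : Type*} [RCLike 𝕜] {E : Type*} [NormedAddCommGroup E] [NormedSpace 𝕜 E]
    [CompleteSpace E] [TopologicalSpace.SeparableSpace E] :
    List.TFAE [
      ∃ v : ℕ → StrongDual 𝕜 E →L[𝕜] StrongDual 𝕜 E, IsWeakStarPiBasis v,
      ∃ v : ℕ → StrongDual 𝕜 E →L[𝕜] StrongDual 𝕜 E, IsWeakStarPiBasis v ∧
        ∀ n, ∃ q : E →L[𝕜] E, ∀ f, v n f = f ∘L q,
      ∃ p : ℕ → E →L[𝕜] E, IsFDD p,
      ∃ p : ℕ → E →L[𝕜] E, IsDualPiBasis p,
      (∃ u : ℕ → E →L[𝕜] E, IsPiBasis u) ∧ ∃ T : ℕ → E →L[𝕜] E, IsCommApprox T] :=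
  main

end Pool.Agent.Results.MP_1910d6_an.WeakStarPiIffFDD
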